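import Pool.Agent.Helper82.BR.St2

/-!
# Project BR, module KEL: Kelly's eight points
-/

set_option autoImplicit false

namespace Pool.Agent.Helper63.BR

open Finset
open Pool.Agent.Helper82.BR

/-- coordinates: real part `x1 + x2 √3`, imaginary part `y1 + y2 √3` -/
private def x1 : Fin 8 → ℤ := ![1, -1, -1, 1, 1, 0, -1, 0]
private def x2 : Fin 8 → ℤ := ![0, 0, 0, 0, 1, 0, -1, 0]
private def y1 : Fin 8 → ℤ := ![1, 1, -1, -1, 0, 1, 0, -1]
private def y2 : Fin 8 → ℤ := ![0, 0, 0, 0, 0, 1, 0, -1]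

private def D1 (i j : Fin 8) : ℤ :=
  (x1 i - x1 j) ^ 2 + 3 * (x2 i - x2 j) ^ 2 + (y1 i - y1 j) ^ 2 + 3 * (y2 i - y2 j) ^ 2
private def D2 (i j : Fin 8) : ℤ :=
  2 * (x1 i - x1 j) * (x2 i - x2 j) + 2 * (y1 i - y1 j) * (y2 i - y2 j)

private theorem chk : ∀ i j : Fin 8, i ≠ j → ∃ k l : Fin 8, k ≠ l ∧ (D1 k i = D1 k j ∧ D2 k i = D2 k j) ∧
    (D1 l i = D1 l j ∧ D2 l i = D2 l j) := by
  decide +kernel

private theorem inj : ∀ i j : Fin 8, (x1 i - x1 j) ^ 2 = 3 * (x2 i - x2 j) ^ 2 →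
    (y1 i - y1 j) ^ 2 = 3 * (y2 i - y2 j) ^ 2 → i = j := by
  decide +kernel

private noncomputable def f (i : Fin 8) : ℂ :=
  ⟨(x1 i : ℝ) + (x2 i : ℝ) * Real.sqrt 3, (y1 i : ℝ) + (y2 i : ℝ) * Real.sqrt 3⟩

private lemma s3 : Real.sqrt 3 ^ 2 = 3 := Real.sq_sqrt (by norm_num)

private lemma ds (i j : Fin 8) : dist (f i) (f j) = Real.sqrt ((D1 i j : ℝ) + (D2 i j : ℝ) * Real.sqrt 3) := by
  rw [Complex.dist_eq_re_im]
  congr 1
  show ((x1 i : ℝ) + (x2 i : ℝ) * Real.sqrt 3 - ((x1 j : ℝ) + (x2 j : ℝ) * Real.sqrt 3)) ^ 2 +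
    ((y1 i : ℝ) + (y2 i : ℝ) * Real.sqrt 3 - ((y1 j : ℝ) + (y2 j : ℝ) * Real.sqrt 3)) ^ 2 = _
  unfold D1 D2
  push_cast
  linear_combination (((x2 i : ℝ) - x2 j) ^ 2 + ((y2 i : ℝ) - y2 j) ^ 2) * s3

private lemma sq (a b c d : ℤ) (h : (a : ℝ) + (b : ℝ) * Real.sqrt 3 = (c : ℝ) + (d : ℝ) * Real.sqrt 3) :
    (a - c) ^ 2 = 3 * (b - d) ^ 2 := by
  have h1 : ((a : ℝ) - c) ^ 2 = 3 * ((b : ℝ) - d) ^ 2 := by
    have h2 : (a : ℝ) - c = -(((b : ℝ) - d) * Real.sqrt 3) := by linear_combination h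
    rw [h2]
    linear_combination ((b : ℝ) - d) ^ 2 * s3
  exact_mod_cast h1

private lemma f_inj : Function.Injective f := by
  intro i j h
  have h1 := congrArg Complex.re h
  have h2 := congrArg Complex.im h
  exact inj i j (sq _ _ _ _ h1) (sq _ _ _ _ h2)

theorem hKEL : StKEL := by
  classical
  refine ⟨univ.image f, ?_, ?_⟩
  · rw [card_image_of_injective _ f_inj]
    simp
  · intro p hp q hq hpq
    rw [mem_image] at hp hq
    obtain ⟨i, -, rfl⟩ := hp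
    obtain ⟨j, -, rfl⟩ := hq
    have hij : i ≠ j := fun h => hpq (by rw [h])
    obtain ⟨k, l, hkl, ⟨a1, a2⟩, b1, b2⟩ := chk i j hij
    have h1 : ({f k, f l} : Finset ℂ) ⊆ (univ.image f).filter (fun s => dist s (f i) = dist s (f j)) := by
      intro s hs
      rw [mem_insert, mem_singleton] at hs
      rw [mem_filter]
      rcases hs with rfl | rfl
      · exact ⟨mem_image_of_mem _ (mem_univ _), by rw [ds, ds, a1, a2]⟩
      · exact ⟨mem_image_of_mem _ (mem_univ _), by rw [ds, ds, b1, b2]⟩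
    have h2 := card_le_card h1
    rw [card_pair (fun h => hkl (f_inj h))] at h2
    exact h2

end Pool.Agent.Helper63.BR
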