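import Pool.Agent.Helper82.BR.St4

/-!
# Project BR8, module KR: both of Kelly's sets are rich
-/

set_option autoImplicit false

namespace Pool.Agent.Helper63.BR

open Finset
open Pool.Agent.Helper82.BR

private def x1 : Fin 8 → ℤ := ![1, -1, 1, -1, 1, -1, 0, 0]
private def x2 : Fin 8 → ℤ := ![0, 0, 0, 0, 1, -1, 0, 0]
private def y1 : Fin 8 → ℤ := ![1, 1, -1, -1, 0, 0, 1, -1]
private def y2 : Fin 8 → ℤ := ![0, 0, 0, 0, 0, 0, 1, -1]

private def D1 (i j : Fin 8) : ℤ :=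
  (x1 i - x1 j) ^ 2 + 3 * (x2 i - x2 j) ^ 2 + (y1 i - y1 j) ^ 2 + 3 * (y2 i - y2 j) ^ 2
private def D2 (i j : Fin 8) : ℤ :=
  2 * (x1 i - x1 j) * (x2 i - x2 j) + 2 * (y1 i - y1 j) * (y2 i - y2 j)

private theorem chk : ∀ i j : Fin 8, i ≠ j → ∃ k l : Fin 8, k ≠ l ∧ (D1 k i = D1 k j ∧ D2 k i = D2 k j) ∧
    (D1 l i = D1 l j ∧ D2 l i = D2 l j) := by
  decide +kernel

private theorem inj : ∀ i j : Fin 8, (x1 i - x1 j) ^ 2 = 3 * (x2 i - x2 j) ^ 2 →
    (y1 i - y1 j) ^ 2 = 3 * (y2 i - y2 j) ^ 2 → i = j := by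
  decide +kernel

private noncomputable def f (t : ℝ) (i : Fin 8) : ℂ :=
  ⟨(x1 i : ℝ) + (x2 i : ℝ) * t, (y1 i : ℝ) + (y2 i : ℝ) * t⟩

private lemma ds (t : ℝ) (s3 : t ^ 2 = 3) (i j : Fin 8) :
    dist (f t i) (f t j) = Real.sqrt ((D1 i j : ℝ) + (D2 i j : ℝ) * t) := by
  rw [Complex.dist_eq_re_im]
  congr 1
  show ((x1 i : ℝ) + (x2 i : ℝ) * t - ((x1 j : ℝ) + (x2 j : ℝ) * t)) ^ 2 +
    ((y1 i : ℝ) + (y2 i : ℝ) * t - ((y1 j : ℝ) + (y2 j : ℝ) * t)) ^ 2 = _
  unfold D1 D2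
  push_cast
  linear_combination (((x2 i : ℝ) - x2 j) ^ 2 + ((y2 i : ℝ) - y2 j) ^ 2) * s3

private lemma sq (t : ℝ) (s3 : t ^ 2 = 3) (a b c d : ℤ) (h : (a : ℝ) + (b : ℝ) * t = (c : ℝ) + (d : ℝ) * t) :
    (a - c) ^ 2 = 3 * (b - d) ^ 2 := by
  have h1 : ((a : ℝ) - c) ^ 2 = 3 * ((b : ℝ) - d) ^ 2 := by
    have h2 : (a : ℝ) - c = -(((b : ℝ) - d) * t) := by linear_combination h
    rw [h2]
    linear_combination ((b : ℝ) - d) ^ 2 * s3
  exact_mod_cast h1

private lemma f_inj (t : ℝ) (s3 : t ^ 2 = 3) : Function.Injective (f t) := by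
  intro i j h
  have h1 := congrArg Complex.re h
  have h2 := congrArg Complex.im h
  exact inj i j (sq t s3 _ _ _ _ h1) (sq t s3 _ _ _ _ h2)

private lemma kc (t : ℝ) : KC (1 + t) = univ.image (f t) := by
  classical
  have h8 : (univ : Finset (Fin 8)) = {0, 1, 2, 3, 4, 5, 6, 7} := by decide
  have e0 : f t 0 = 1 + Complex.I := by apply Complex.ext <;> simp [f, x1, x2, y1, y2]
  have e1 : f t 1 = -1 + Complex.I := by apply Complex.ext <;> simp [f, x1, x2, y1, y2]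
  have e2 : f t 2 = 1 - Complex.I := by apply Complex.ext <;> simp [f, x1, x2, y1, y2]
  have e3 : f t 3 = -1 - Complex.I := by apply Complex.ext <;> simp [f, x1, x2, y1, y2]
  have e4 : f t 4 = ((1 + t : ℝ) : ℂ) := by
    apply Complex.ext
    · rw [Complex.ofReal_re]; simp [f, x1, x2]
    · rw [Complex.ofReal_im]; simp [f, y1, y2]
  have e5 : f t 5 = -((1 + t : ℝ) : ℂ) := by
    apply Complex.ext
    · rw [Complex.neg_re, Complex.ofReal_re]; simp [f, x1, x2]; ring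
    · rw [Complex.neg_im, Complex.ofReal_im]; simp [f, y1, y2]
  have e6 : f t 6 = ((1 + t : ℝ) : ℂ) * Complex.I := by
    apply Complex.ext
    · rw [Complex.re_ofReal_mul]; simp [f, x1, x2]
    · rw [Complex.im_ofReal_mul]; simp [f, y1, y2]
  have e7 : f t 7 = -(((1 + t : ℝ) : ℂ) * Complex.I) := by
    apply Complex.ext
    · rw [Complex.neg_re, Complex.re_ofReal_mul]; simp [f, x1, x2]
    · rw [Complex.neg_im, Complex.im_ofReal_mul]; simp [f, y1, y2]; ring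
  rw [h8]
  simp only [image_insert, image_singleton, e0, e1, e2, e3, e4, e5, e6, e7]
  rfl

private lemma main (t : ℝ) (s3 : t ^ 2 = 3) : Rich (KC (1 + t)) ∧ (KC (1 + t)).card = 8 := by
  classical
  rw [kc]
  refine ⟨?_, ?_⟩
  · intro p hp q hq hpq
    rw [mem_image] at hp hq
    obtain ⟨i, -, rfl⟩ := hp
    obtain ⟨j, -, rfl⟩ := hq
    have hij : i ≠ j := fun h => hpq (by rw [h])
    obtain ⟨k, l, hkl, ⟨a1, a2⟩, b1, b2⟩ := chk i j hij
    have h1 : ({f t k, f t l} : Finset ℂ) ⊆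
        (univ.image (f t)).filter (fun s => dist s (f t i) = dist s (f t j)) := by
      intro s hs
      rw [mem_insert, mem_singleton] at hs
      rw [mem_filter]
      rcases hs with rfl | rfl
      · exact ⟨mem_image_of_mem _ (mem_univ _), by rw [ds t s3, ds t s3, a1, a2]⟩
      · exact ⟨mem_image_of_mem _ (mem_univ _), by rw [ds t s3, ds t s3, b1, b2]⟩
    have h2 := card_le_card h1
    rw [card_pair (fun h => hkl (f_inj t s3 h))] at h2
    exact h2
  · rw [card_image_of_injective _ (f_inj t s3)]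
    simp

theorem hKR : StKR := by
  intro h hh
  have s3 : Real.sqrt 3 ^ 2 = 3 := Real.sq_sqrt (by norm_num)
  rcases hh with rfl | rfl
  · exact main _ s3
  · have := main (-Real.sqrt 3) (by rw [neg_sq]; exact s3)
    rwa [← sub_eq_add_neg] at this

end Pool.Agent.Helper63.BR
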