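import Pool.Agent.Helper82.BR.St3

/-!
# Project BR8, module NA2
-/

set_option autoImplicit false

namespace Pool.Agent.Helper63.BR

open Finset
open Pool.Agent.Helper82.BR

private lemma dsq (s P Q : ℂ) (h : dist s P = dist s Q) :
    (s.re - P.re) ^ 2 + (s.im - P.im) ^ 2 = (s.re - Q.re) ^ 2 + (s.im - Q.im) ^ 2 := by
  rw [Complex.dist_eq_re_im, Complex.dist_eq_re_im, Real.sqrt_inj (by positivity) (by positivity)] at h
  exact h

private lemma two {T : Finset ℂ} (hR : Rich T) {P Q : ℂ} (hP : P ∈ T) (hQ : Q ∈ T) (h : P ≠ Q) (c : ℂ) :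
    ∃ s ∈ T, s ≠ c ∧
      (s.re - P.re) ^ 2 + (s.im - P.im) ^ 2 = (s.re - Q.re) ^ 2 + (s.im - Q.im) ^ 2 := by
  have h1 := hR P hP Q hQ h
  obtain ⟨s, hs, hsc⟩ := Finset.exists_mem_ne (by omega : 1 < (T.filter (fun s => dist s P = dist s Q)).card) c
  rw [mem_filter] at hs
  exact ⟨s, hs.1, hsc, dsq s P Q hs.2⟩

private lemma core (T : Finset ℂ) (h a b : ℝ) (hh : h ≠ 0) (ha : a ≠ h) (hb : b ≠ h) (ha0 : a ≠ 0) (hb0 : b ≠ 0)
    (hR : Rich T)
    (hT : ∀ z : ℂ, z ∈ T ↔ z = ⟨-1, 0⟩ ∨ z = ⟨0, 0⟩ ∨ z = ⟨1, 0⟩ ∨ z = ⟨0, 2 * h⟩ ∨ z = ⟨-1/2, h⟩ ∨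
      z = ⟨-1/2, a⟩ ∨ z = ⟨1/2, h⟩ ∨ z = ⟨1/2, b⟩) : False := by
  have mA : (⟨-1/2, h⟩ : ℂ) ∈ T := by rw [hT]; tauto
  have mA' : (⟨-1/2, a⟩ : ℂ) ∈ T := by rw [hT]; tauto
  have mB : (⟨1/2, h⟩ : ℂ) ∈ T := by rw [hT]; tauto
  have mB' : (⟨1/2, b⟩ : ℂ) ∈ T := by rw [hT]; tauto
  have m0 : (⟨0, 0⟩ : ℂ) ∈ T := by rw [hT]; tauto
  have mY : (⟨0, 2 * h⟩ : ℂ) ∈ T := by rw [hT]; tauto
  -- the left pair
  have hL : a = -h ∨ (a = 3 * h ∧ b = 2 * h) := by
    obtain ⟨s, hs, hsc, he⟩ := two hR mA mA' (fun h => ha (congrArg Complex.im h).symm) ⟨0, 2 * h⟩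
    have he' : (a - h) * (2 * s.im - (h + a)) = 0 := by
      simp only at he
      linear_combination he
    have he2 : 2 * s.im = h + a := by
      rcases mul_eq_zero.1 he' with h1 | h1
      · exact absurd (sub_eq_zero.1 h1) ha
      · linarith
    obtain ⟨s', hs', hsc', hf⟩ := two hR mA mA' (fun h => ha (congrArg Complex.im h).symm) ⟨1/2, b⟩
    have hf' : (a - h) * (2 * s'.im - (h + a)) = 0 := by
      simp only at hf
      linear_combination hf
    have hf2 : 2 * s'.im = h + a := by
      rcases mul_eq_zero.1 hf' with h1 | h1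
      · exact absurd (sub_eq_zero.1 h1) ha
      · linarith
    rw [hT] at hs hs'
    rcases hs with rfl | rfl | rfl | rfl | rfl | rfl | rfl | rfl
    · left; simp only at he2; linarith
    · left; simp only at he2; linarith
    · left; simp only at he2; linarith
    · exact absurd rfl hsc
    · exfalso; apply ha; simp only at he2; linarith
    · exfalso; apply ha; simp only at he2; linarith
    · exfalso; apply ha; simp only at he2; linarith
    · simp only at he2
      rcases hs' with rfl | rfl | rfl | rfl | rfl | rfl | rfl | rfl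
      · left; simp only at hf2; linarith
      · left; simp only at hf2; linarith
      · left; simp only at hf2; linarith
      · right; simp only at hf2; constructor <;> linarith
      · exfalso; apply ha; simp only at hf2; linarith
      · exfalso; apply ha; simp only at hf2; linarith
      · exfalso; apply ha; simp only at hf2; linarith
      · exact absurd rfl hsc'
  have hRr : b = -h ∨ (b = 3 * h ∧ a = 2 * h) := by
    obtain ⟨s, hs, hsc, he⟩ := two hR mB mB' (fun h => hb (congrArg Complex.im h).symm) ⟨0, 2 * h⟩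
    have he' : (b - h) * (2 * s.im - (h + b)) = 0 := by
      simp only at he
      linear_combination he
    have he2 : 2 * s.im = h + b := by
      rcases mul_eq_zero.1 he' with h1 | h1
      · exact absurd (sub_eq_zero.1 h1) hb
      · linarith
    obtain ⟨s', hs', hsc', hf⟩ := two hR mB mB' (fun h => hb (congrArg Complex.im h).symm) ⟨-1/2, a⟩
    have hf' : (b - h) * (2 * s'.im - (h + b)) = 0 := by
      simp only at hf
      linear_combination hf
    have hf2 : 2 * s'.im = h + b := by
      rcases mul_eq_zero.1 hf' with h1 | h1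
      · exact absurd (sub_eq_zero.1 h1) hb
      · linarith
    rw [hT] at hs hs'
    rcases hs with rfl | rfl | rfl | rfl | rfl | rfl | rfl | rfl
    · left; simp only at he2; linarith
    · left; simp only at he2; linarith
    · left; simp only at he2; linarith
    · exact absurd rfl hsc
    · exfalso; apply hb; simp only at he2; linarith
    · simp only at he2
      rcases hs' with rfl | rfl | rfl | rfl | rfl | rfl | rfl | rfl
      · left; simp only at hf2; linarith
      · left; simp only at hf2; linarith
      · left; simp only at hf2; linarith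
      · right; simp only at hf2; constructor <;> linarith
      · exfalso; apply hb; simp only at hf2; linarith
      · exact absurd rfl hsc'
      · exfalso; apply hb; simp only at hf2; linarith
      · exfalso; apply hb; simp only at hf2; linarith
    · exfalso; apply hb; simp only at he2; linarith
    · exfalso; apply hb; simp only at he2; linarith
  have hab : a = -h ∧ b = -h := by
    rcases hL with h1 | ⟨h1, h2⟩ <;> rcases hRr with h3 | ⟨h3, h4⟩
    · exact ⟨h1, h3⟩
    · exfalso; apply hh; linarith
    · exfalso; apply hh; linarith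
    · exfalso; apply hh; linarith
  obtain ⟨rfl, rfl⟩ := hab
  have hh2 : 0 < h ^ 2 := by positivity
  -- the pair `0`, `(1/2, h)`
  have k1 : h ^ 2 = 3 / 4 ∨ h ^ 2 = 1 / 12 := by
    obtain ⟨s, hs, hsc, he⟩ := two hR m0 mB (fun h' => by
      have := congrArg Complex.re h'
      norm_num at this) ⟨0, 0⟩
    rw [hT] at hs
    rcases hs with rfl | rfl | rfl | rfl | rfl | rfl | rfl | rfl <;> simp only at he
    · nlinarith
    · nlinarith
    · left; nlinarith
    · right; nlinarith
    · left; nlinarith
    · nlinarith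
    · nlinarith
    · right; nlinarith
  have k2 : h ^ 2 = 3 / 4 := by
    rcases k1 with k | k
    · exact k
    · exfalso
      obtain ⟨s, hs, hsc, he⟩ := two hR m0 mB' (fun h' => by
        have := congrArg Complex.re h'
        norm_num at this) ⟨1/2, h⟩
      rw [hT] at hs
      rcases hs with rfl | rfl | rfl | rfl | rfl | rfl | rfl | rfl <;> simp only at he
      · nlinarith
      · nlinarith
      · nlinarith
      · nlinarith
      · nlinarith
      · nlinarith
      · exact hsc rfl
      · nlinarith
  obtain ⟨s, hs, hsc, he⟩ := two hR mY mB (fun h' => by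
    have := congrArg Complex.re h'
    norm_num at this) ⟨-1/2, h⟩
  rw [hT] at hs
  rcases hs with rfl | rfl | rfl | rfl | rfl | rfl | rfl | rfl <;> simp only at he
  · nlinarith
  · nlinarith
  · nlinarith
  · nlinarith
  · exact hsc rfl
  · nlinarith
  · nlinarith
  · nlinarith

theorem hNA2 : StNA2 := by
  intro T y0 y1 y2 y3 y4 h0 h1 h2 h3 h4 h12 h34 hR hT
  have m0 : (⟨0, 0⟩ : ℂ) ∈ T := by rw [hT]; tauto
  have mY : (⟨0, y0⟩ : ℂ) ∈ T := by rw [hT]; tauto
  have hne : (⟨0, 0⟩ : ℂ) ≠ ⟨0, y0⟩ := fun h => h0 (congrArg Complex.im h).symm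
  have key : ∀ c : ℂ, ∃ s ∈ T, s ≠ c ∧ 2 * s.im = y0 := by
    intro c
    obtain ⟨s, hs, hsc, he⟩ := two hR m0 mY hne c
    refine ⟨s, hs, hsc, ?_⟩
    have he' : y0 * (2 * s.im - y0) = 0 := by
      simp only at he
      linear_combination he
    rcases mul_eq_zero.1 he' with h5 | h5
    · exact absurd h5 h0
    · linarith
  have hL : y0 = 2 * y1 ∨ y0 = 2 * y2 := by
    by_contra hcon
    push Not at hcon
    obtain ⟨s, hs, -, he⟩ := key 0
    rw [hT] at hs
    have e3 : y0 = 2 * y3 ∨ y0 = 2 * y4 := by
      rcases hs with rfl | rfl | rfl | rfl | rfl | rfl | rfl | rfl <;> simp only at he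
      · exact absurd (by linarith) h0
      · exact absurd (by linarith) h0
      · exact absurd (by linarith) h0
      · exact absurd (by linarith) h0
      · exact absurd he.symm hcon.1
      · exact absurd he.symm hcon.2
      · exact Or.inl he.symm
      · exact Or.inr he.symm
    rcases e3 with e | e
    · obtain ⟨s, hs, hsc, he⟩ := key ⟨1/2, y3⟩
      rw [hT] at hs
      rcases hs with rfl | rfl | rfl | rfl | rfl | rfl | rfl | rfl <;> simp only at he
      · exact h0 (by linarith)
      · exact h0 (by linarith)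
      · exact h0 (by linarith)
      · exact h0 (by linarith)
      · exact hcon.1 he.symm
      · exact hcon.2 he.symm
      · exact hsc rfl
      · exact h34 (by linarith)
    · obtain ⟨s, hs, hsc, he⟩ := key ⟨1/2, y4⟩
      rw [hT] at hs
      rcases hs with rfl | rfl | rfl | rfl | rfl | rfl | rfl | rfl <;> simp only at he
      · exact h0 (by linarith)
      · exact h0 (by linarith)
      · exact h0 (by linarith)
      · exact h0 (by linarith)
      · exact hcon.1 he.symm
      · exact hcon.2 he.symm
      · exact h34 (by linarith)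
      · exact hsc rfl
  have hRr : y0 = 2 * y3 ∨ y0 = 2 * y4 := by
    by_contra hcon
    push Not at hcon
    rcases hL with e | e
    · obtain ⟨s, hs, hsc, he⟩ := key ⟨-1/2, y1⟩
      rw [hT] at hs
      rcases hs with rfl | rfl | rfl | rfl | rfl | rfl | rfl | rfl <;> simp only at he
      · exact h0 (by linarith)
      · exact h0 (by linarith)
      · exact h0 (by linarith)
      · exact h0 (by linarith)
      · exact hsc rfl
      · exact h12 (by linarith)
      · exact hcon.1 he.symm
      · exact hcon.2 he.symm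
    · obtain ⟨s, hs, hsc, he⟩ := key ⟨-1/2, y2⟩
      rw [hT] at hs
      rcases hs with rfl | rfl | rfl | rfl | rfl | rfl | rfl | rfl <;> simp only at he
      · exact h0 (by linarith)
      · exact h0 (by linarith)
      · exact h0 (by linarith)
      · exact h0 (by linarith)
      · exact h12 (by linarith)
      · exact hsc rfl
      · exact hcon.1 he.symm
      · exact hcon.2 he.symm
  rcases hL with e | e <;> rcases hRr with e' | e'
  · have : y3 = y1 := by linarith
    subst this
    subst e
    exact core T y3 y2 y4 h1 h12.symm h34.symm h2 h4 hR hT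
  · have : y4 = y1 := by linarith
    subst this
    subst e
    refine core T y4 y2 y3 h1 h12.symm h34 h2 h3 hR (fun z => (hT z).trans ?_)
    tauto
  · have : y3 = y2 := by linarith
    subst this
    subst e
    refine core T y3 y1 y4 h2 h12 h34.symm h1 h4 hR (fun z => (hT z).trans ?_)
    tauto
  · have : y4 = y2 := by linarith
    subst this
    subst e
    refine core T y4 y1 y3 h2 h12 h34 h1 h3 hR (fun z => (hT z).trans ?_)
    tauto

end Pool.Agent.Helper63.BR
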